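import Mathlib
import Pool.Agent.P.MP_fe41f2_co.Defs
import Pool.Agent.P.MP_fe41f2_co.OrF

set_option autoImplicit false

open Pool.Agent.P.MP_fe41f2_co

namespace Pool.Agent.Results.MP_fe41f2_co.Orthogonal

theorem result :
    ∀ k : ℕ → ℕ, (fun n => (k n : ℝ)) =o[Filter.atTop] (fun n : ℕ => (n : ℝ)) →
      ∀ (C : ℝ) (n₀ : ℕ), ∃ n ≥ n₀, ∃ (v : ZMod n → ℝ × ℝ) (T₁ T₂ : Set (Set (ℝ × ℝ))),
        IsSimplePolygon n v ∧
        (∀ i, (v i).1 = (v (i + 1)).1 ∨ (v i).2 = (v (i + 1)).2) ∧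
        (∃ i j, ∀ x ∈ region n v,
          segment ℝ (v i) x ⊆ region n v ∨ segment ℝ (v j) x ⊆ region n v) ∧
        IsTriangulation (region n v) (Set.range v) T₁ ∧
        IsTriangulation (region n v) (Set.range v) T₂ ∧
        ∀ j ≤ k n, ∀ T₁' T₂', InsertSeq j T₁ T₂ T₁' T₂' →
          ∀ F : ℕ, FlipSeq F T₁' T₂' → C * n < F :=
  fun k hk C n₀ => Orth.main3 k hk C n₀

/-- the negated form of Q1: the same statement without the two extra clauses -/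
theorem posed :
    ∀ k : ℕ → ℕ, (fun n => (k n : ℝ)) =o[Filter.atTop] (fun n : ℕ => (n : ℝ)) →
      ∀ (C : ℝ) (n₀ : ℕ), ∃ n ≥ n₀, ∃ (v : ZMod n → ℝ × ℝ) (T₁ T₂ : Set (Set (ℝ × ℝ))),
        IsSimplePolygon n v ∧ IsTriangulation (region n v) (Set.range v) T₁ ∧
        IsTriangulation (region n v) (Set.range v) T₂ ∧
        ∀ j ≤ k n, ∀ T₁' T₂', InsertSeq j T₁ T₂ T₁' T₂' →
          ∀ F : ℕ, FlipSeq F T₁' T₂' → C * n < F := fun k hk C n₀ => by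
  obtain ⟨n, hn, v, T₁, T₂, h1, -, -, h2⟩ := result k hk C n₀
  exact ⟨n, hn, v, T₁, T₂, h1, h2⟩

/-- the same statement without the clause on the edges -/
theorem twoGuards :
    ∀ k : ℕ → ℕ, (fun n => (k n : ℝ)) =o[Filter.atTop] (fun n : ℕ => (n : ℝ)) →
      ∀ (C : ℝ) (n₀ : ℕ), ∃ n ≥ n₀, ∃ (v : ZMod n → ℝ × ℝ) (T₁ T₂ : Set (Set (ℝ × ℝ))),
        IsSimplePolygon n v ∧
        (∃ i j, ∀ x ∈ region n v,
          segment ℝ (v i) x ⊆ region n v ∨ segment ℝ (v j) x ⊆ region n v) ∧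
        IsTriangulation (region n v) (Set.range v) T₁ ∧
        IsTriangulation (region n v) (Set.range v) T₂ ∧
        ∀ j ≤ k n, ∀ T₁' T₂', InsertSeq j T₁ T₂ T₁' T₂' →
          ∀ F : ℕ, FlipSeq F T₁' T₂' → C * n < F := fun k hk C n₀ => by
  obtain ⟨n, hn, v, T₁, T₂, h1, -, h2⟩ := result k hk C n₀
  exact ⟨n, hn, v, T₁, T₂, h1, h2⟩

/-- the count behind `result`: with `n = 4N(M+1)+4` vertices and `j` inserted points,
`4F ≥ (N-j)M(2M+1)` -/
theorem family (M N n : ℕ) (hn : n = 4 * (N * (M + 1)) + 4) :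
    ∃ (v : ZMod n → ℝ × ℝ) (T₁ T₂ : Set (Set (ℝ × ℝ))),
      IsSimplePolygon n v ∧
      (∀ i, (v i).1 = (v (i + 1)).1 ∨ (v i).2 = (v (i + 1)).2) ∧
      (∃ i j, ∀ x ∈ region n v,
        segment ℝ (v i) x ⊆ region n v ∨ segment ℝ (v j) x ⊆ region n v) ∧
      IsTriangulation (region n v) (Set.range v) T₁ ∧
      IsTriangulation (region n v) (Set.range v) T₂ ∧
      ∀ j T₁' T₂', InsertSeq j T₁ T₂ T₁' T₂' → ∀ F : ℕ, FlipSeq F T₁' T₂' →
        N * (M * (2 * M + 1)) ≤ 4 * F + j * (M * (2 * M + 1)) := by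
  obtain rfl : n = 2 * (2 * (N * (M + 1)) + 1) + 2 := by omega
  exact Orth.family M N

/-- the same family: `T₁` and `T₂` are joined by a flip sequence, and the count also holds for
sequences of `F` moves in which `j` points are inserted or removed at any time -/
theorem joined (M N n : ℕ) (hn : n = 4 * (N * (M + 1)) + 4) :
    ∃ (v : ZMod n → ℝ × ℝ) (T₁ T₂ : Set (Set (ℝ × ℝ))),
      IsSimplePolygon n v ∧
      (∀ i, (v i).1 = (v (i + 1)).1 ∨ (v i).2 = (v (i + 1)).2) ∧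
      IsTriangulation (region n v) (Set.range v) T₁ ∧
      IsTriangulation (region n v) (Set.range v) T₂ ∧
      (∃ F, FlipSeq F T₁ T₂) ∧
      (∀ j T₁' T₂', InsertSeq j T₁ T₂ T₁' T₂' → ∀ F : ℕ, FlipSeq F T₁' T₂' →
        N * (M * (2 * M + 1)) ≤ 4 * F + j * (M * (2 * M + 1))) ∧
      ∀ (j F : ℕ) (q : ℕ → ℝ × ℝ) (f : ℕ → Set (Set (ℝ × ℝ))), f 0 = T₁ → f F = T₂ →
        (∀ i < F, Flip (f i) (f (i + 1)) ∨
          ∃ l < j, InsertPoint (q l) (f i) (f (i + 1)) ∨ InsertPoint (q l) (f (i + 1)) (f i)) →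
        N * (M * (2 * M + 1)) ≤ 4 * F + j * (M * (2 * M + 1)) := by
  obtain rfl : n = 2 * (2 * (N * (M + 1)) + 1) + 2 := by omega
  exact Orth.family2 M N

end Pool.Agent.Results.MP_fe41f2_co.Orthogonal
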